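import Pool.Agent.H77.KG.Targets

/-!
# MP_9d0bb7_lc, kgr_modules, row KUN: normalized abelian groups have infinite groups of fixed points
-/

set_option autoImplicit false

open Set Pool.Agent.H77.BC Pool.Agent.H77.BD Pool.Agent.H77.KG

namespace Pool.Agent.H4.KGR

theorem pf_KUN (hCTD : T_CTD) (hCCE : T_CCE) (hFCJ : T_FCJ) (hMEX : T_MEX) (hSBM : T_SBM)
    (hCLI : T_CLI) (hADT : T_ADT) (hHMI : T_HMI) : T_KUN := by
  classical
  intro M U H V _ _ _ _ _ _ _ _ _ L _ p hp hker U1 hX hab hSpl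
  obtain ⟨X, hXdef⟩ : ∃ X, X = U1.comap p := ⟨_, rfl⟩
  have hXm : ∀ g, g ∈ X ↔ p g ∈ U1 := by
    intro g
    rw [hXdef]
    rfl
  rw [← hXdef] at hX ⊢
  obtain ⟨Uh, hUh⟩ : ∃ Uh, Uh = cc U X := ⟨_, rfl⟩
  have hcX := hCCE U X hX
  rw [← hUh] at hcX ⊢
  obtain ⟨hUc, hUX, _, _, _, hUnorm⟩ := hcX
  -- (1)
  have hUab : ∀ a ∈ Uh, ∀ b ∈ Uh, a * b = b * a := by
    intro a ha b hb
    refine hFCJ U Uh b hUc ?_ a ha
    refine (hker.image (fun k => k * b)).subset ?_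
    rintro _ ⟨g, hg, rfl⟩
    refine ⟨g * b * g⁻¹ * b⁻¹, ?_, by group⟩
    have h1 := (hXm g).1 (hUX hg)
    have h2 := (hXm b).1 (hUX hb)
    change p (g * b * g⁻¹ * b⁻¹) = 1
    rw [map_mul, map_mul, map_mul, map_inv, map_inv, hab _ h1 _ h2]
    group
  -- (2)
  obtain ⟨N, hN⟩ : ∃ N : Subgroup H, N = Subgroup.normalizer (Uh : Set H) := ⟨_, rfl⟩
  have hNm : ∀ g, g ∈ N ↔ ∀ x, x ∈ Uh ↔ g * x * g⁻¹ ∈ Uh := by
    intro g
    rw [hN]
    exact Iff.rfl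
  have hND : U.D (N : Set H) := by
    rw [hN]
    exact (hCTD U).2.2.1 Uh hUc.1
  have hUN : Uh ≤ N := by
    rw [hN]
    exact Subgroup.le_normalizer
  obtain ⟨Q, hQ⟩ : ∃ Q, Q = cc U N := ⟨_, rfl⟩
  have hcN := hCCE U N hND
  rw [← hQ] at hcN
  obtain ⟨hQc, hQN, _, hQi, _, hQnorm⟩ := hcN
  have hUQ : Uh ≤ Q := by
    have h1 : (Q ⊓ Uh).relIndex Uh ≠ 0 := by
      rw [Subgroup.inf_relIndex_right]
      intro h
      exact hQi (Subgroup.relIndex_eq_zero_of_le_right hUN h)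
    have hD : U.D ((Q ⊓ Uh : Subgroup H) : Set H) := by
      rw [Subgroup.coe_inf]
      exact D_inter hQc.1 hUc.1
    have h2 := (Pool.Agent.H77.BCP.a_GRA U Uh (Q ⊓ Uh) hUc.1 hD inf_le_right).1 h1
    have h3 := hUc.2 _ inf_le_right hD h2
    exact inf_eq_right.1 h3
  -- (3)
  have hinf : ((⊤ : AddSubgroup V) : Set V).Infinite := by
    rw [AddSubgroup.coe_top]
    exact infinite_univ
  have hVD : U.D ((⊤ : AddSubgroup V) : Set V) := by
    rw [AddSubgroup.coe_top]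
    exact Ful.full
  obtain ⟨V1, -, hV1, hV1c⟩ := hMEX U Q (⊤ : AddSubgroup V) hVD
    (fun _ _ _ _ => AddSubgroup.mem_top _) hinf
  have hiv : Iv Q V1 := hV1.2.1
  obtain ⟨i1, i2, i3, c1, c2, m1⟩ := hSBM U Q V1 hiv hQc.1 hV1.1
  letI : DistribMulAction Q V1 := subAct Q V1 hiv
  have hnorm : (Uh.subgroupOf Q).Normal := by
    constructor
    intro n hn g
    exact ((hNm g).1 (hQN g.2) n).1 hn
  have hcli := hCLI U (G := Q) (V := V1) (c1 hQc) (m1 hV1) (Uh.subgroupOf Q) hnorm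
    (c2 Uh hUQ hUc) (fun a ha b hb => Subtype.ext (hUab a ha b hb))
  have hcen : ∀ g ∈ Q, ∀ u ∈ Uh, ∀ v ∈ V1, (g * u * g⁻¹) • v = u • v := by
    intro g hg u hu v hv
    exact congrArg Subtype.val (hcli ⟨g, hg⟩ ⟨u, hUQ hu⟩ hu ⟨v, hv⟩)
  -- (4)
  obtain ⟨k, hk⟩ : ∃ k, k = Q.relIndex N := ⟨_, rfl⟩
  obtain ⟨d, hd1, hd2⟩ := hSpl k (by
    rw [hk]
    exact Nat.one_le_iff_ne_zero.2 hQi)
  obtain ⟨d', rfl⟩ := hp d
  have hd'N : d' ∈ N := by
    rw [hNm]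
    refine hUnorm d' fun y => ?_
    rw [hXm, hXm, map_mul, map_mul, map_inv]
    exact hd1 (p y)
  obtain ⟨h, hh⟩ : ∃ h, h = d' ^ k := ⟨_, rfl⟩
  have hhQ : h ∈ Q := by
    have hQNn : (Q.subgroupOf N).Normal := by
      constructor
      intro n hn g
      refine (hQnorm (g : H) (fun y => ?_) (n : H)).1 hn
      constructor
      · intro hy
        exact N.mul_mem (N.mul_mem g.2 hy) (N.inv_mem g.2)
      · intro hy
        have h1 : y = (g : H)⁻¹ * ((g : H) * y * (g : H)⁻¹) * (g : H) := by group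
        rw [h1]
        exact N.mul_mem (N.mul_mem (N.inv_mem g.2) hy) g.2
    have h2 := Subgroup.pow_index_mem (Q.subgroupOf N) ⟨d', hd'N⟩
    rw [hh, hk]
    exact h2
  have hhU : ∀ x, x ∈ Uh ↔ h * x * h⁻¹ ∈ Uh := (hNm h).1 (hQN hhQ)
  obtain ⟨f, hf⟩ : ∃ f : H → H, f = fun u => h * u * h⁻¹ * u⁻¹ := ⟨_, rfl⟩
  have hfD : DFn U f := by
    rw [hf]
    exact DFn_gmul (DFn_gmul (DFn_gmul (DFn_const h) DFn_id) (DFn_const h⁻¹)) (DFn_ginv DFn_id)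
  let N1 : Subgroup H :=
    { carrier := {u | u ∈ Uh ∧ ∀ v : V, v ∈ V1 → u • v = v}
      one_mem' := ⟨Uh.one_mem, fun v _ => one_smul _ v⟩
      mul_mem' := by
        rintro a b ⟨ha, ha'⟩ ⟨hb, hb'⟩
        refine ⟨Uh.mul_mem ha hb, fun v hv => ?_⟩
        rw [mul_smul, hb' v hv, ha' v hv]
      inv_mem' := by
        rintro a ⟨ha, ha'⟩
        refine ⟨Uh.inv_mem ha, fun v hv => ?_⟩
        rw [inv_smul_eq_iff, ha' v hv] }
  have hN1D : U.D (N1 : Set H) := by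
    have h1 : U.D {u : H | u ∈ Uh ∧ ∀ v : V, v ∈ V1 → u • v = v} := by
      refine D_and hUc.1 ?_
      refine D_forall (p := fun (u : H) (v : V) => v ∈ V1 → u • v = v) ?_
      refine D_imp ?_ ?_
      · exact D_subst (p := fun v : V => v ∈ V1) hV1.1 DFn_snd
      · exact D_eqf (DFn_act DFn_fst DFn_snd) DFn_snd
    exact h1
  have hfN1 : ∀ u ∈ Uh, f u ∈ N1 := by
    intro u hu
    rw [hf]
    refine ⟨Uh.mul_mem ((hhU u).1 hu) (Uh.inv_mem hu), fun v hv => ?_⟩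
    have hv' : u⁻¹ • v ∈ V1 := hiv u⁻¹ (Q.inv_mem (hUQ hu)) v hv
    rw [mul_smul, hcen h hhQ u hu _ hv', smul_inv_smul]
  obtain ⟨C, hC⟩ : ∃ C : Subgroup H, C = Uh ⊓ Subgroup.centralizer {h} := ⟨_, rfl⟩
  have hCm : ∀ u, u ∈ C ↔ u ∈ Uh ∧ h * u = u * h := by
    intro u
    rw [hC, Subgroup.mem_inf, Subgroup.mem_centralizer_singleton_iff]
    exact and_congr_right fun _ => eq_comm
  have hCD : U.D (C : Set H) := by
    rw [hC, Subgroup.coe_inf]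
    exact D_inter hUc.1 ((hCTD U).1 _)
  have hCfin : (C : Set H).Finite := by
    refine hker.subset ?_
    intro u hu
    obtain ⟨h1, h2⟩ := (hCm u).1 hu
    change p u = 1
    refine hd2 (p u) ((hXm u).1 (hUX h1)) ?_
    rw [← map_pow, ← hh, ← map_mul, ← map_mul, h2]
  have hCR : U.R (C : Set H) = 0 :=
    ((Pool.Agent.H77.BCP.a_RKA U).fin hCD ⟨1, C.one_mem⟩).2 hCfin
  have hrk := Pool.Agent.H77.BCP.a_GRC U Uh C f hUc.1 hCD (by rw [hC]; exact inf_le_left) hfD (by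
    intro a ha b hb
    rw [hCm, hf]
    beta_reduce
    constructor
    · intro h1
      refine ⟨Uh.mul_mem (Uh.inv_mem ha) hb, ?_⟩
      have h2 : h * b * h⁻¹ = (h * a * h⁻¹) * (a⁻¹ * b) := by
        have h3 : h * b * h⁻¹ = (h * b * h⁻¹ * b⁻¹) * b := by group
        rw [h3, ← h1]
        group
      have h4 : h * (a⁻¹ * b) = (h * a * h⁻¹)⁻¹ * (h * b * h⁻¹) * h := by group
      rw [h4, h2]
      group
    · rintro ⟨_, h1⟩
      have h2 : h * b * h⁻¹ = (h * a * h⁻¹) * (a⁻¹ * b) := by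
        have h3 : h * b * h⁻¹ = (h * a * h⁻¹) * (h * (a⁻¹ * b) * h⁻¹) := by group
        rw [h3, h1]
        group
      rw [h2]
      group)
  rw [hCR, add_zero] at hrk
  have hsub : f '' (Uh : Set H) ⊆ (N1 : Set H) := by
    rintro _ ⟨u, hu, rfl⟩
    exact hfN1 u hu
  have hmono := (Pool.Agent.H77.BCP.a_RKA U).mono (DFn_image hfD hUc.1) hN1D
    ⟨f 1, 1, Uh.one_mem, rfl⟩ hsub
  have hN1 : N1 = Uh := hUc.2 N1 (fun u hu => hu.1) hN1D (by rw [hrk]; exact hmono)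
  refine hV1.2.2.1.mono ?_
  intro v hv g hg
  have h1 : g ∈ N1 := by
    rw [hN1]
    exact hg
  exact h1.2 v hv

end Pool.Agent.H4.KGR
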